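import Pool.Agent.helper69.HN.Thr2

namespace Pool.Agent.Results.MP_069684_lc.HalfCliqueNegations

open Pool.Agent.helper38.Neg Pool.Agent.helper55.NT Pool.Agent.Mix
open Pool.Agent.LN (HC)

/-- How many NOT gates does half clique need?
(1) The explicit lower bound for the clique function of graphs on `N` vertices (`n = N ^ 2` input
bits: adjacency matrix) and cliques of any size `κ ≤ N / 2`: circuits of AND, OR, NOT gates and
constants with `r` NOT gates, `2 ^ r ≤ K`, or with at most `K` NOT-vectors along every increasing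
sequence of inputs; and circuits of binary monotone real gates (counted) and arbitrary gates (free
of charge) with at most `K` patterns along every increasing sequence of inputs. Here `K ≥ N`.
(2) With at least `log₂ n - O(1)` NOT gates, polynomial size circuits for the NP-complete language
half clique exist if and only if `P/Poly = NP/Poly`.
(3) With at most `log₂ n - 16 log₂ log₂ n` NOT gates (infinitely often) they do not exist.
(4) The exact threshold for quasi-polynomial size. -/
theorem result :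
    (∀ N κ K s : ℕ, N ≤ K → 2 * κ ≤ N →
      (∀ (C : Circuit (N * N) s) (o : Fin (N * N + s)), C.Computes o (Clique N κ) →
        (2 ^ C.notCount ≤ K ∨ C.PatternsLE K) →
        (2 : ℝ) ^ ((min (κ : ℝ) (((N : ℝ) ^ 2 / K) ^ ((1 : ℝ) / 3)) / Real.logb 2 N) ^ ((1 : ℝ) / 4) / 4
          - 3) ≤ s + 1) ∧
      ∀ (C : MixCircuit (N * N) s) (o : Fin (N * N + s)), C.Computes o (Clique N κ) →
        C.PatternsLE K →
        (2 : ℝ) ^ ((min (κ : ℝ) (((N : ℝ) ^ 2 / K) ^ ((1 : ℝ) / 3)) / Real.logb 2 N) ^ ((1 : ℝ) / 4) / 4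
          - 3) ≤ C.size + 1) ∧
    (∀ r : ℕ → ℕ, (∃ c, ∀ n, n ≤ c * 2 ^ r n) →
      (PolyNots r HC ↔ ∀ A, InNPPoly A → InPPoly A)) ∧
    (∀ r : ℕ → ℕ, (∃ᶠ n in Filter.atTop, 2 ^ r n * lg n ^ 16 ≤ n) → ¬ PolyNots r HC) ∧
    ∀ r : ℕ → ℕ, QuasiNots r HC ↔
      (∃ c, ∀ n, n ≤ c * lg n ^ c * 2 ^ r n) ∧ ∀ A, InNPPoly A → InQuasi A := by
  refine ⟨fun N κ K s hNK hκ => ⟨fun C o hC hp => ?_, fun C o hC hp => Pool.Agent.HN.real_bound hNK hκ C o hC hp⟩,
    Pool.Agent.HN.hn_poly, Pool.Agent.HN.hn_poly_neg, Pool.Agent.HN.hn_quasi⟩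
  have hp' : C.PatternsLE K := by
    rcases hp with h | h
    · exact patterns_of_notCount C h
    · exact h
  refine (Pool.Agent.HN.real_bound hNK hκ (Pool.Agent.HN.toMix C) o (Pool.Agent.HN.toMix_computes C o _ hC)
    (Pool.Agent.HN.toMix_patterns C hp')).trans ?_
  have h2 := Pool.Agent.HN.toMix_size C
  have h3 : ((Pool.Agent.HN.toMix C).size : ℝ) ≤ s := by exact_mod_cast h2
  linarith

end Pool.Agent.Results.MP_069684_lc.HalfCliqueNegations
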