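import Pool.Agent.helper91.HZF.Final

namespace Pool.Agent.Results.MP_069684_lc.HazardFree

open Pool.Agent.helper38.Neg Pool.Agent.helper55.NT Pool.Agent.HZF
open Pool.Agent.LN (HC)

/-- Circuits without `k`-bit hazards. Inputs are `0`, `1` or unstable (`none`); AND, OR, NOT gates are evaluated in the
three valued logic of Kleene (`val3`). `HazFree k C o`: whenever at most `k` inputs are unstable and all their resolutions give
the output `b`, the three valued output is `b`. `HazPoly k`, `HazQuasi k`: languages with circuits of polynomial,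
quasi-polynomial size without `k n`-bit hazards. `HC`: half clique. `m = min (k n) n`.
(1) Every circuit with `s` gates on `n` inputs has an equivalent one without `k`-bit hazards with at most
`(s + 1) (n + 2)^c (k + 2)^(c k)` gates.
(2) If `m lg m = O(lg n)` then all languages of P/Poly have circuits of polynomial size without `k n`-bit hazards, and NP/Poly =
P/Poly if and only if half clique (equivalently: all of NP/Poly) has them.
(3) For some constant `c` the half clique language has no circuits of polynomial size without `k n`-bit hazards unless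
`m = O((lg n)^c)`; and the languages of P/Poly do not all have them unless `m = O((lg n)^20)`.
(4) At quasi-polynomial size all languages of P/Poly have them if and only if `m` is polylogarithmic, and half clique
(equivalently: all of NP/Poly) has them if and only if `m` is polylogarithmic and NP/Poly has quasi-polynomial circuits. -/
theorem result :
    (∃ c : ℕ, ∀ (n s k : ℕ) (C : Circuit n s) (o : Fin (n + s)),
      ∃ s' ≤ (s + 1) * (n + 2) ^ c * (k + 2) ^ (c * k), ∃ (C' : Circuit n s') (o' : Fin (n + s')),
        (∀ x, C'.val x o' = C.val x o) ∧ HazFree k C' o') ∧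
    (∀ k : ℕ → ℕ, (∃ c : ℕ, ∀ n, min (k n) n * lg (min (k n) n) ≤ c * lg n) →
      (∀ A, InPPoly A → HazPoly k A) ∧
        [∀ A, InNPPoly A → InPPoly A, ∀ A, InNPPoly A → HazPoly k A, HazPoly k HC].TFAE) ∧
    ((∃ c : ℕ, ∀ k : ℕ → ℕ, HazPoly k HC → ∃ b, ∀ n, min (k n) n ≤ b * lg n ^ c) ∧
      ∀ k : ℕ → ℕ, (∀ A, InPPoly A → (∀ n, Monotone (A n)) → HazPoly k A) →
        ∃ b : ℕ, ∀ n, min (k n) n ≤ b * lg n ^ 20) ∧
    ∀ k : ℕ → ℕ,
      [∃ c : ℕ, ∀ n, min (k n) n ≤ c * lg n ^ c,
        ∀ A, InQuasi A → HazQuasi k A,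
        ∀ A, InPPoly A → (∀ n, Monotone (A n)) → HazQuasi k A].TFAE ∧
      [(∃ c : ℕ, ∀ n, min (k n) n ≤ c * lg n ^ c) ∧ ∀ A, InNPPoly A → InQuasi A,
        ∀ A, InNPPoly A → HazQuasi k A,
        HazQuasi k HC].TFAE :=
  ⟨zFPT, zPoly, ⟨zGap, zGapP⟩, fun k => ⟨zQuasi k, zHC k⟩⟩

end Pool.Agent.Results.MP_069684_lc.HazardFree
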