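import Pool.Agent.helper45.SGK.Qua

/-!
MP_069684_lc: the cost of sign symmetry for every Boolean constraint satisfaction problem.
-/

set_option autoImplicit false

namespace Pool.Agent.Results.MP_069684_lc.SymmetryClassification

open Pool.Agent.helper38.Neg Pool.Agent.helper55.NT Pool.Agent.SGK
open Pool.Agent.SGC (Sg SCirc)

/-- P/Poly = NP/Poly. -/
def Collapse : Prop := ∀ A, InNPPoly A → InPPoly A

/-- The orders of the groups `V n` are polynomially bounded. -/
def OrdPoly {k : ℕ} (V : (n : ℕ) → Submodule (ZMod 2) (Sg (tw k n))) : Prop :=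
  ∃ q : Polynomial ℕ, ∀ n, Nat.card (V n) ≤ q.eval n

/-- Circuits with arbitrary symmetric gates which respect groups of sign changes of the variables, for the satisfiability
problem `SAT k P`: `k ≥ 1`, constraints `P` of `k` literals, `P` any set of words of `k` bits. `P` is rigid if every affine
intersection of translates of `P` is closed under majority.
(1) `P` rigid: for some polynomial `q`, a circuit with `s` AND, OR, NOT gates for `SAT k P` gives a circuit with at most `s + q(n)` gates
which respects `V`, for every group `V` of sign changes.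
(2) `P` not rigid: a circuit with `s` gates which respects `V` and decides `SAT k P` has `|V| ≤ (s + 2) ^ 241`.
(3) For every sequence `V n` of groups: if `P` is closed under majority, `SAT k P` has polynomial-size circuits respecting
`V`; if `P` is affine and not closed under majority, iff the orders of the groups `V n` are polynomially bounded; if `P` is neither
and rigid, iff P/Poly = NP/Poly; if `P` is neither and not rigid, iff P/Poly = NP/Poly and the orders are polynomially bounded.
(4) `k ≥ 3`: all languages of P/Poly (of NP/Poly) with `V n`-invariant slices have such circuits iff the orders are polynomially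
bounded (and P/Poly = NP/Poly). Examples: `k`-XOR is of the second kind, 1-in-`k`-SAT of the third kind, `k`-SAT of the fourth kind.
(5) NAE-3SAT is of the third kind. -/
theorem result :
    (∀ (k : ℕ) [NeZero k] (P : Finset (Wd k)), Rigid P → ∃ q : Polynomial ℕ,
      ∀ (n s : ℕ) (V : Submodule (ZMod 2) (Sg (tw k n))) (C : Circuit n s) (o : Fin (n + s)),
      C.Computes o (SAT k P n) → ∃ s' ≤ s + q.eval n, ∃ C' : SCirc n (Fin s'), Symm V C' ∧
        ∀ x, C'.val x C'.out = true ↔ SAT k P n x) ∧
    (∀ (k : ℕ) [NeZero k] (P : Finset (Wd k)), ¬ Rigid P →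
      ∀ (n s : ℕ) (V : Submodule (ZMod 2) (Sg (tw k n))) (C : SCirc n (Fin s)), Symm V C →
      (∀ x, C.val x C.out = true ↔ SAT k P n x) → Nat.card V ≤ (s + 2) ^ 241) ∧
    (∀ (k : ℕ) [NeZero k] (P : Finset (Wd k)) (V : (n : ℕ) → Submodule (ZMod 2) (Sg (tw k n))),
      (MajClosed P → SymPoly V (SAT k P)) ∧
      (¬ MajClosed P → AffClosed P → (SymPoly V (SAT k P) ↔ OrdPoly V)) ∧
      (¬ MajClosed P → ¬ AffClosed P → Rigid P → (SymPoly V (SAT k P) ↔ Collapse)) ∧
      (¬ MajClosed P → ¬ AffClosed P → ¬ Rigid P → (SymPoly V (SAT k P) ↔ Collapse ∧ OrdPoly V))) ∧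
    (∀ (k : ℕ) [NeZero k], 3 ≤ k →
      (∀ V : (n : ℕ) → Submodule (ZMod 2) (Sg (tw k n)),
        ((∀ A, InPPoly A → (∀ n, Inva (V n) (A n)) → SymPoly V A) ↔ OrdPoly V) ∧
        ((∀ A, InNPPoly A → (∀ n, Inva (V n) (A n)) → SymPoly V A) ↔ Collapse ∧ OrdPoly V)) ∧
      (¬ MajClosed (kXor k) ∧ AffClosed (kXor k)) ∧
      (¬ MajClosed (oneIn k) ∧ ¬ AffClosed (oneIn k) ∧ Rigid (oneIn k)) ∧
      ¬ MajClosed (kSat k) ∧ ¬ AffClosed (kSat k) ∧ ¬ Rigid (kSat k)) ∧
    ¬ MajClosed nae3 ∧ ¬ AffClosed nae3 ∧ Rigid nae3 :=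
  ⟨fun k _ P hP => all_rigid k P hP, fun k _ P hP n s V C hV hC => all_low k P hP n s V C hV hC,
    fun k _ P V => all_class k P V,
    fun k _ hk => ⟨fun V => ⟨all_pp k hk V, all_np k hk V⟩, kXor_spec k hk, oneIn_spec k hk, kSat_spec k hk⟩,
    nae3_spec⟩

end Pool.Agent.Results.MP_069684_lc.SymmetryClassification
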