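import Pool.Agent.helper20.VVO.Asm

set_option autoImplicit false

open Filter Topology

namespace Pool.Agent.Results.MP_069684_lc.ValiantVaziraniOptimal

open Pool.Agent.PB Pool.Agent.ISO Pool.Agent.ISA Pool.Agent.VVO

/-- Valiant-Vazirani is optimal: the critical probability of the isolation of witnesses, for every bound on their number.
`AllPrun m A p`: for every family of verifiers of polynomial size there are, for every input length `n`, polynomially many
verifiers of polynomial size which accept only witnesses of the given one, such that for every input of length `n` with `1` to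
`m n` witnesses the number of witnesses is in `A n` for at least the fraction `p n` of them (`A n = {1}`: isolation); `AllPrunS`:
the same for verifiers whose witnesses are not longer than the input.
`crit m A`: the value of the game in which one player chooses a probability distribution on the sets `K` with `1` to `m` elements, the
other player a set `T`, and the second player gets the probability of `|T ∩ K| ∈ A`.
(1) If `p` is above the critical probability for `min (m n) (n ^ c)` witnesses then all verifiers can be pruned to `1, ..., j` witnesses if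
and only if P/Poly = NP/Poly.
(2) If `p` is above the critical probability for `min (m n) (μ n)` witnesses, `ln (μ n) ≤ n ^ (1 - ε)`, then the pruning of all verifiers
implies NP/Poly = coNP/Poly, and that all languages of NP/Poly have circuits of size `(n + μ (n ^ a)) ^ c + c`.
(3) If `p` is below the critical probability then all verifiers can be pruned.
(4) The critical probability: `1/2` for the isolation of one of at most two witnesses, positive, at most `H_j / H_m`, and
asymptotically `H_j / ln m`. -/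
theorem result :
    (∀ (ε : ℝ) (j c : ℕ) (m : ℕ → ℕ) (p : ℕ → ℝ), 0 < ε → 1 ≤ j → (∀ n, 1 ≤ m n) → (∀ n, p n ≤ 1) →
      (∀ᶠ n : ℕ in atTop, (1 + ε) * crit (min (m n) (n ^ c)) (Set.Icc 1 j) ≤ p n) →
        (AllPrun m (fun _ => Set.Icc 1 j) p ↔ ∀ L : Lang, InPPoly L ↔ InNPPoly L) ∧
        (AllPrunS m (fun _ => Set.Icc 1 j) p ↔ ∀ L : Lang, InPPoly L ↔ InNPPoly L)) ∧
    (∀ (ε : ℝ) (j : ℕ) (m μ : ℕ → ℕ) (p : ℕ → ℝ), 0 < ε → ε < 1 → 1 ≤ j → (∀ n, 1 ≤ m n) → (∀ n, 1 ≤ μ n) →
      (∀ᶠ n : ℕ in atTop, Real.log (μ n) ≤ (n : ℝ) ^ (1 - ε)) →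
      (∀ᶠ n : ℕ in atTop, (1 + ε) * crit (min (m n) (μ n)) (Set.Icc 1 j) ≤ p n) → AllPrunS m (fun _ => Set.Icc 1 j) p →
        (∀ L : Lang, InNPPoly L ↔ InNPPoly (PB.compl L)) ∧
        ∀ L : Lang, InNPPoly L → ∃ a c : ℕ, ∀ n, Size std (L n) ((n + μ (n ^ a)) ^ c + c)) ∧
    (∀ (ε : ℝ) (j : ℕ) (m : ℕ → ℕ) (p : ℕ → ℝ), 0 < ε → 1 ≤ j → (∀ n, 1 ≤ m n) →
      (∀ n, p n ≤ (1 - ε) * crit (m n) (Set.Icc 1 j)) → AllPrun m (fun _ => Set.Icc 1 j) p) ∧
    crit 2 {1} = 1 / 2 ∧
    (∀ m j : ℕ, 1 ≤ m → 1 ≤ j → 0 < crit m (Set.Icc 1 j)) ∧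
    (∀ m j : ℕ, 1 ≤ j → j ≤ m → crit m (Set.Icc 1 j) ≤ (harmonic j : ℝ) / (harmonic m : ℝ)) ∧
    ∀ j : ℕ, 1 ≤ j → Tendsto (fun m : ℕ => crit m (Set.Icc 1 j) * Real.log m) atTop (𝓝 (harmonic j : ℝ)) :=
  ⟨Asm.vFNX.1, Asm.vFNX.2.1, Asm.vFNX.2.2.1, Asm.vFNX.2.2.2.1,
    fun m j hm hj => (Pool.Agent.ISA.Asm.aTHA m (Set.Icc 1 j) hm ⟨le_rfl, hj⟩).2.2.1,
    Asm.vFNX.2.2.2.2.1, Asm.vFNX.2.2.2.2.2⟩

end Pool.Agent.Results.MP_069684_lc.ValiantVaziraniOptimal
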